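import Pool.Agent.H666.TK.SpecB

/-!
# The remaining part of `PP` injects into `CH (k + 1)`
-/

set_option autoImplicit false

open Finset
open scoped Classical

namespace Pool.Agent.H571.TKp4

open Pool.Agent.H666.TK

variable {V : Type} [DecidableEq V] {H : Finset (Finset V)}

/-- the first component is determined by the set -/
theorem det {R R' : Finset V} {a a' b x : V} (h : Tr H R a b x) (h' : Tr H R' a' b x)
    (he : insert a R = insert a' R') : a = a' := by
  by_contra hne
  have ha' : a' ∈ R := by
    have : a' ∈ insert a R := by rw [he]; exact mem_insert_self _ _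
    rw [mem_insert] at this
    rcases this with h1 | h1
    · exact absurd h1.symm hne
    · exact h1
  refine h'.2.2.2 (h.2.2.1.2.2.2 _ ?_ ?_)
  · intro y hy
    simp only [mem_insert, mem_singleton] at hy ⊢
    rcases hy with rfl | rfl | rfl
    · exact Or.inr (Or.inr ha')
    · exact Or.inl rfl
    · exact Or.inr (Or.inl rfl)
  · have n1 := h'.1.2.2.1
    have n2 := h'.2.1.2.2.1
    have n3 := h'.2.2.1.2.2.1
    rw [card_insert_of_notMem, card_insert_of_notMem, card_singleton]
    · simpa using n3
    · simp [n1, n2]

theorem s_p4 : Pool.Agent.H666.TK.S_p4 := by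
  intro V _ _ H B k
  refine card_le_card_of_injOn (fun p => (insert p.2.1 p.1, p.2.2.2.1, p.2.2.1, p.2.2.2.2)) ?_ ?_
  · rintro ⟨R, a, b, x, z⟩ hp
    simp only [coe_filter, PP, mem_filter, mem_univ, true_and, Set.mem_ofPred_eq] at hp
    obtain ⟨⟨hR, hL, hAD⟩, n1, n2, n3⟩ := hp
    obtain ⟨⟨hab, hax, hbx, hm⟩, -⟩ := hL
    have za : z ≠ a := by
      rintro rfl
      exact NA_not_AD (NA_symm hax) hAD
    have zb : z ≠ b := by
      rintro rfl
      exact NA_not_AD (NA_symm hbx) hAD
    have haz : NA H R a z := by
      rcases NA_or_AD (NA_left hab) hAD.2.1 za.symm with h | h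
      · exact h
      · exact absurd (AD_symm h) n1
    have hbz : NA H R b z := by
      rcases NA_or_AD (NA_right hab) hAD.2.1 zb.symm with h | h
      · exact h
      · exact absurd (AD_symm h) n2
    simp only [coe_filter, CH, mem_univ, true_and, Set.mem_ofPred_eq]
    refine ⟨Cs_insert hR (NA_left hab), ?_, AD_insert hax haz hAD, ?_⟩
    · refine AD_insert_of_missing hax hab (NA_ne hbx).symm ?_
      intro h
      apply hm
      have : ({a, b, x} : Finset V) = {a, x, b} := by rw [Finset.pair_comm b x]
      rwa [this]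
    · have eb : b ∈ ext H (insert a R) := by
        rw [mem_ext]
        refine ⟨?_, ?_⟩
        · simp only [mem_insert, not_or]
          exact ⟨(NA_ne hab).symm, hab.2.1⟩
        · rw [Finset.insert_comm]; exact hab.2.2.2
      have ez : z ∈ ext H (insert a R) := by
        rw [mem_ext]
        refine ⟨?_, ?_⟩
        · simp only [mem_insert, not_or]
          exact ⟨za, haz.2.1⟩
        · rw [Finset.insert_comm]; exact haz.2.2.2
      rcases NA_or_AD eb ez zb.symm with h | h
      · exact h
      · exact absurd h n3
  · rintro ⟨R, a, b, x, z⟩ hp ⟨R', a', b', x', z'⟩ hp' he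
    simp only [coe_filter, PP, mem_filter, mem_univ, true_and, Set.mem_ofPred_eq] at hp hp'
    simp only [Prod.mk.injEq] at he
    obtain ⟨e1, e2, e3, e4⟩ := he
    subst e2 e3 e4
    have ea := det hp.1.2.1.1 hp'.1.2.1.1 e1
    subst ea
    have hR : R = R' := by
      have h1 : a ∉ R := hp.1.2.1.1.1.1
      have h2 : a ∉ R' := hp'.1.2.1.1.1.1
      rw [← erase_insert h1, ← erase_insert h2, e1]
    subst hR
    rfl

end Pool.Agent.H571.TKp4
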